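import Mathlib
import Pool.Agent.Work.MP_787500_nt.H67_LocDefs

/-!
Definitions for the statement on Selmer groups with local conditions, for all primes `p`.
-/

set_option autoImplicit false

namespace Pool.Agent.Work.MP_787500_nt.Uni

open IsDedekindDomain NumberField
open Pool.Agent.Work.MP_787500_nt.OddP (AbsGal IsBase)
open scoped Pointwise

universe u

/-- `K` and `p` satisfy `IsBase`, or `K` is a quadratic field and contains a square root of `1 - 4 p`,
or `K` is a quadratic field, `p = 2` and `K` contains a square root of `-q`, for a prime `q` congruent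
to 7 modulo 16. -/
def IsBaseField (p : ℕ) (K : Type u) [Field K] [NumberField K] : Prop :=
  IsBase p K ∨ (Module.finrank ℚ K = 2 ∧ ((∃ s : K, s ^ 2 = 1 - 4 * (p : K)) ∨
    (p = 2 ∧ ∃ (q : ℕ) (s : K), q.Prime ∧ q % 16 = 7 ∧ s ^ 2 = -(q : K))))

variable {p : ℕ} [Fact p.Prime] {F : Type u} [Field F] {n : ℕ}

/-- Every element of the image of `ρ` modulo `p` has order a power of `p`, or `ρ` is modulo `p` upper
triangular and each diagonal entry modulo `p` is the trivial character or the cyclotomic character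
(the character describing the action on the `p`-th roots of unity). -/
def ResidType (ρ : AbsGal F →* Matrix (Fin n) (Fin n) ℤ_[p]) : Prop :=
  (∀ σ, ∃ k : ℕ, ∀ i j, (p : ℤ_[p]) ∣ (ρ (σ ^ p ^ k) - 1) i j) ∨
  ((∀ σ, ∀ i j, j < i → (p : ℤ_[p]) ∣ ρ σ i j) ∧
    ∀ i, (∀ σ, (p : ℤ_[p]) ∣ ρ σ i i - 1) ∨
      (∀ σ, ∃ m : ℕ, (p : ℤ_[p]) ∣ ρ σ i i - m ∧ ∀ z : AlgebraicClosure F, z ^ p = 1 → σ z = z ^ m))

/-- The representation `ρ` is continuous, satisfies `ResidType`, is modulo `p` unramified away from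
`p`; the decomposition group (the stabilizer) of `P` preserves the span of the coordinate vectors with
index in `S`, and the decomposition group of `P'` preserves the span of the coordinate vectors with
index outside `S`. -/
structure IsAdm (ρ : AbsGal F →* Matrix (Fin n) (Fin n) ℤ_[p])
    (P P' : Ideal (𝓞 (AlgebraicClosure F))) (S : Set (Fin n)) : Prop where
  cont : Continuous ρ
  resid : ResidType ρ
  unram : ∀ Q : Ideal (𝓞 (AlgebraicClosure F)), Q.IsPrime → (p : 𝓞 (AlgebraicClosure F)) ∉ Q →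
    ∀ σ ∈ Q.inertia (AbsGal F), ∀ i j, (p : ℤ_[p]) ∣ (ρ σ - 1) i j
  left : ∀ σ ∈ MulAction.stabilizer (AbsGal F) P, ∀ i ∉ S, ∀ j ∈ S, ρ σ i j = 0
  right : ∀ σ ∈ MulAction.stabilizer (AbsGal F) P', ∀ i ∈ S, ∀ j ∉ S, ρ σ i j = 0

end Pool.Agent.Work.MP_787500_nt.Uni
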