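import Mathlib
import Pool.Agent.Work.MP_787500_nt.H67_Ord

/-!
A decomposition group over `p` surjects onto each finite `p`-group quotient in which the inertia groups
away from `p` are trivial, given the vanishing for the trivial character modulo `p`.
-/

set_option autoImplicit false
set_option linter.unusedSectionVars false

namespace Pool.Agent.Work.MP_787500_nt.Uni

open IsDedekindDomain NumberField
open Pool.Agent.Work.MP_787500_nt.OddP (AbsGal Vanish)
open scoped Pointwise

universe u

variable {F : Type u} [Field F] [NumberField F]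

/-- a subgroup of prime index `p` in a `p`-group is the kernel of a homomorphism to `ZMod p` -/
theorem exists_hom_of_index {A : Type*} [Group A] [Finite A] {p : ℕ} [Fact p.Prime]
    (hA : IsPGroup p A) (K : Subgroup A) (hK : K.index = p) :
    ∃ f : A →* Multiplicative (ZMod p), f.ker = K := by
  have hp : p.Prime := Fact.out
  obtain ⟨m, hm⟩ := IsPGroup.iff_card.1 hA
  have hcard : (Nat.card A).minFac = p := by
    rw [hm]
    have hm0 : m ≠ 0 := by
      rintro rfl
      rw [pow_zero] at hm
      have h1 := K.index_dvd_card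
      rw [hm, hK, Nat.dvd_one] at h1
      exact hp.one_lt.ne' h1
    exact Nat.Prime.pow_minFac hp hm0
  have hN : K.Normal := Subgroup.normal_of_index_eq_minFac_card (by rw [hK, hcard])
  have hq : Nat.card (A ⧸ K) = p := hK
  have hcyc : IsCyclic (A ⧸ K) := isCyclic_of_prime_card hq
  have hq2 : Nat.card (A ⧸ K) = Nat.card (Multiplicative (ZMod p)) := by
    rw [hq]
    simp
  have e : A ⧸ K ≃* Multiplicative (ZMod p) := mulEquivOfCyclicCardEq hq2
  refine ⟨e.toMonoidHom.comp (QuotientGroup.mk' K), ?_⟩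
  ext x
  rw [MonoidHom.mem_ker, MonoidHom.comp_apply]
  show e (QuotientGroup.mk' K x) = 1 ↔ _
  rw [map_eq_one_iff e e.injective]
  exact QuotientGroup.eq_one_iff x

theorem surj_of_vanish {p : ℕ} [Fact p.Prime] {P : Ideal (𝓞 (AlgebraicClosure F))}
    (hV : Vanish p P (1 : AbsGal F →* ZMod p)) (U : Subgroup (AbsGal F)) [U.Normal]
    (hopen : IsOpen (U : Set (AbsGal F))) (hpow : ∀ g : AbsGal F, ∃ k : ℕ, g ^ (p ^ k) ∈ U)
    (hin : ∀ Q : Ideal (𝓞 (AlgebraicClosure F)), Q.IsPrime → (p : 𝓞 (AlgebraicClosure F)) ∉ Q →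
      Q.inertia (AbsGal F) ≤ U) (g : AbsGal F) :
    ∃ δ ∈ MulAction.stabilizer (AbsGal F) P, δ⁻¹ * g ∈ U := by
  have hp : p.Prime := Fact.out
  have hfin : Finite (AbsGal F ⧸ U) := Subgroup.quotient_finite_of_isOpen U hopen
  have hP : IsPGroup p (AbsGal F ⧸ U) := by
    intro x
    obtain ⟨g, rfl⟩ := QuotientGroup.mk_surjective x
    obtain ⟨k, hk⟩ := hpow g
    exact ⟨k, by rw [← QuotientGroup.mk_pow, QuotientGroup.eq_one_iff]; exact hk⟩
  obtain ⟨m, hm⟩ := IsPGroup.iff_card.1 hP
  let π := QuotientGroup.mk' U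
  let D := (MulAction.stabilizer (AbsGal F) P).map π
  obtain ⟨n, hnm, hn⟩ := (Nat.dvd_prime_pow hp).1 (hm ▸ Subgroup.card_subgroup_dvd_card D)
  have hDtop : D = ⊤ := by
    by_contra hD
    have hlt : n < m := by
      rcases lt_or_eq_of_le hnm with h | h
      · exact h
      · exfalso
        apply hD
        rw [← Subgroup.card_eq_iff_eq_top, hn, hm, h]
    obtain ⟨K, hK, hDK⟩ := Sylow.exists_subgroup_card_pow_prime_le (p := p) (n := n) (m := m - 1)
      (by rw [hm]; exact pow_dvd_pow p (by omega)) D hn (by omega)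
    have hidx : K.index = p := by
      have h3 := K.card_mul_index
      rw [hm, hK] at h3
      have h4 : p ^ m = p ^ (m - 1) * p := by rw [← pow_succ]; congr 1; omega
      rw [h4] at h3
      exact Nat.eq_of_mul_eq_mul_left (pow_pos hp.pos _) h3
    obtain ⟨f, hf⟩ := exists_hom_of_index hP K hidx
    have hfU : ∀ u ∈ U, f (π u) = 1 := by
      intro u hu
      have : π u = 1 := (QuotientGroup.eq_one_iff u).2 hu
      rw [this, map_one]
    have h0 := hV (fun σ => Multiplicative.toAdd (f (π σ)))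
      (fun σ τ => by rw [map_mul, map_mul, toAdd_mul, MonoidHom.one_apply, one_mul])
      ⟨U, hopen, fun σ v hv => by rw [map_mul, map_mul, hfU v hv, mul_one]⟩
      (fun σ hσ => by
        have h1 : π σ ∈ f.ker := by rw [hf]; exact hDK ⟨σ, hσ, rfl⟩
        rw [MonoidHom.mem_ker] at h1
        show Multiplicative.toAdd (f (π σ)) = 0
        rw [h1, toAdd_one])
      (fun Q hQ hQp σ hσ => by
        show Multiplicative.toAdd (f (π σ)) = 0
        rw [hfU σ (hin Q hQ hQp hσ), toAdd_one])
    have hKtop : K = ⊤ := by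
      rw [eq_top_iff, ← hf]
      intro x _
      obtain ⟨g, rfl⟩ := QuotientGroup.mk_surjective x
      rw [MonoidHom.mem_ker]
      exact toAdd_eq_zero.1 (h0 g)
    rw [hKtop, Subgroup.index_top] at hidx
    exact hp.one_lt.ne hidx
  have hg : π g ∈ D := by rw [hDtop]; trivial
  obtain ⟨δ, hδ, hδg⟩ := hg
  exact ⟨δ, hδ, QuotientGroup.eq.1 hδg⟩

end Pool.Agent.Work.MP_787500_nt.Uni
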