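import Mathlib
import Pool.Agent.Work.MP_787500_nt.H67_Loc
import Pool.Agent.Work.MP_787500_nt.Uni.Defs
import Pool.Agent.Work.MP_787500_nt.Uni.Surj

/-!
The dimension of the Selmer space with complementary conditions at two primes above `p`, given the
vanishing for characters modulo `p`; residually a `p`-group, or upper triangular.
-/

set_option autoImplicit false
set_option linter.unusedSectionVars false

namespace Pool.Agent.Work.MP_787500_nt.OddP.Ord.All

open IsDedekindDomain NumberField COH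
open Pool.Agent.Work.MP_787500_nt.Uni (IsAdm surj_of_vanish)
open scoped Pointwise

universe u

variable {p : ℕ} [Fact p.Prime] {F : Type u} [Field F] {n : ℕ}

/-- the affine action on vectors modulo `p` -/
noncomputable def affAct (M : Matrix (Fin n) (Fin n) ℤ_[p]) (b : Fin n → ℤ_[p])
    (x : Fin n → ZMod p) : Fin n → ZMod p :=
  fun i => ∑ j, PadicInt.toZMod (M i j) * x j + PadicInt.toZMod (b i)

theorem affAct_mul (M N : Matrix (Fin n) (Fin n) ℤ_[p]) (a b d : Fin n → ℤ_[p])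
    (hd : ∀ i, d i = a i + ∑ j, M i j * b j) (x : Fin n → ZMod p) :
    affAct (M * N) d x = affAct M a (affAct N b x) := by
  ext i
  simp only [affAct, Matrix.mul_apply, hd, map_add, map_sum, map_mul, mul_add,
    Finset.sum_add_distrib, Finset.mul_sum, Finset.sum_mul]
  rw [Finset.sum_comm]
  have : ∀ j k : Fin n, PadicInt.toZMod (M i j) * (PadicInt.toZMod (N j k) * x k) =
      PadicInt.toZMod (M i j) * PadicInt.toZMod (N j k) * x k := fun j k => by ring
  simp only [this]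
  ring

theorem affAct_one (x : Fin n → ZMod p) :
    affAct (1 : Matrix (Fin n) (Fin n) ℤ_[p]) 0 x = x := by
  ext i
  simp only [affAct, Pi.zero_apply, map_zero, add_zero]
  rw [Finset.sum_eq_single i]
  · simp
  · intro j _ hj
    rw [Matrix.one_apply_ne hj.symm]
    simp
  · simp

section key

variable [NumberField F]

theorem norm_lt_one_group {P P' : Ideal (𝓞 (AlgebraicClosure F))} {S : Set (Fin n)}
    (hVP : VV p P) (hVP' : VV p P')
    {ρ : AbsGal F →* Matrix (Fin n) (Fin n) ℤ_[p]} (hρ : Continuous ρ)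
    {c : AbsGal F → Fin n → ℚ_[p]} (hc : IsCocyc ρ c)
    (hun : ∀ Q : Ideal (𝓞 (AlgebraicClosure F)), Q.IsPrime → (p : 𝓞 (AlgebraicClosure F)) ∉ Q →
      ∀ σ ∈ Q.inertia (AbsGal F), (∀ i j, (p : ℤ_[p]) ∣ (ρ σ - 1) i j) ∧ ∀ i, ‖c σ i‖ < 1)
    (hres : ∀ σ, ∃ k : ℕ, ∀ i j, (p : ℤ_[p]) ∣ (ρ (σ ^ p ^ k) - 1) i j)
    (hP : ∀ σ ∈ MulAction.stabilizer (AbsGal F) P, ∀ i ∉ S, c σ i = 0)
    (hP' : ∀ σ ∈ MulAction.stabilizer (AbsGal F) P', ∀ i ∈ S, c σ i = 0)
    (hb : ∀ σ i, ‖c σ i‖ ≤ 1) :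
    ∀ σ i, ‖c σ i‖ < 1 := by
  let b : AbsGal F → Fin n → ℤ_[p] := fun σ i => ⟨c σ i, hb σ i⟩
  have hbc : ∀ σ i, (b σ i : ℚ_[p]) = c σ i := fun σ i => rfl
  have hbmul : ∀ σ τ i, b (σ * τ) i = b σ i + ∑ j, ρ σ i j * b τ j := by
    intro σ τ i
    apply Subtype.ext
    show (b (σ * τ) i : ℚ_[p]) = ((b σ i + ∑ j, ρ σ i j * b τ j : ℤ_[p]) : ℚ_[p])
    rw [PadicInt.coe_add, PadicInt.coe_sum, hbc, hbc, hc.mul]
    simp only [Pi.add_apply, actLin_apply, PadicInt.coe_mul]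
    rfl
  have hb1 : b 1 = 0 := by
    funext i
    apply Subtype.ext
    show c 1 i = ((0 : ℤ_[p]) : ℚ_[p])
    rw [hc.one]
    simp
  let act2 : MulAction (AbsGal F) (Fin n → ZMod p) :=
    { smul := fun g x => affAct (ρ g) (b g) x
      one_smul := fun x => by
        show affAct (ρ 1) (b 1) x = x
        rw [map_one, hb1, affAct_one]
      mul_smul := fun g h x => by
        show affAct (ρ (g * h)) (b (g * h)) x = affAct (ρ g) (b g) (affAct (ρ h) (b h) x)
        rw [map_mul]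
        exact affAct_mul _ _ _ _ _ (hbmul g h) x }
  let φ := MulAction.toPermHom (AbsGal F) (Fin n → ZMod p)
  have hφ : ∀ g x, φ g x = affAct (ρ g) (b g) x := fun g x => rfl
  have hker : ∀ g, (∀ i j, PadicInt.toZMod (ρ g i j) =
      PadicInt.toZMod ((1 : Matrix (Fin n) (Fin n) ℤ_[p]) i j)) →
      (∀ i, PadicInt.toZMod (b g i) = 0) → g ∈ φ.ker := by
    intro g hg1 hg2
    rw [MonoidHom.mem_ker]
    ext x i
    rw [hφ]
    have := congrFun (affAct_one x) i
    simp only [affAct, Pi.zero_apply, map_zero, add_zero] at this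
    simp only [affAct, hg1, hg2, add_zero]
    rw [this]
    rfl
  have hker2 : ∀ g ∈ φ.ker, ∀ i, PadicInt.toZMod (b g i) = 0 := by
    intro g hg i
    rw [MonoidHom.mem_ker] at hg
    have := congrFun (hφ g 0) i
    rw [hg] at this
    simp only [affAct, Pi.zero_apply, mul_zero, Finset.sum_const_zero, zero_add] at this
    exact this.symm
  have hopen : IsOpen (φ.ker : Set (AbsGal F)) := by
    apply Subgroup.isOpen_of_mem_nhds (g := 1)
    have h3 : ((⋂ i, ⋂ j, {g : AbsGal F | ‖ρ g i j - (1 : Matrix (Fin n) (Fin n) ℤ_[p]) i j‖ < 1}) ∩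
        ⋂ i, {g : AbsGal F | ‖c g i‖ < 1}) ∈ nhds (1 : AbsGal F) := by
      apply IsOpen.mem_nhds
      · apply IsOpen.inter
        · refine isOpen_iInter_of_finite (fun i => isOpen_iInter_of_finite (fun j => ?_))
          have h4 : Continuous (fun g : AbsGal F => ρ g i j) :=
            (continuous_apply j).comp ((continuous_apply i).comp hρ)
          exact isOpen_lt (continuous_norm.comp (h4.sub continuous_const)) continuous_const
        · refine isOpen_iInter_of_finite (fun i => ?_)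
          have h4 : Continuous (fun g : AbsGal F => c g i) := (continuous_apply i).comp hc.cont
          exact isOpen_lt (continuous_norm.comp h4) continuous_const
      · refine ⟨Set.mem_iInter.2 (fun i => Set.mem_iInter.2 (fun j => ?_)),
          Set.mem_iInter.2 (fun i => ?_)⟩
        · show ‖ρ 1 i j - _‖ < 1
          rw [map_one, sub_self, norm_zero]
          exact one_pos
        · show ‖c 1 i‖ < 1
          rw [hc.one]
          simp
    refine Filter.mem_of_superset h3 ?_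
    rintro g ⟨hg1, hg2⟩
    refine hker g (fun i j => ?_) (fun i => ?_)
    · rw [← sub_eq_zero, ← map_sub, toZMod_eq_zero_iff]
      exact Set.mem_iInter.1 (Set.mem_iInter.1 hg1 i) j
    · rw [toZMod_eq_zero_iff]
      exact Set.mem_iInter.1 hg2 i
  have hpow : ∀ g : AbsGal F, ∃ k : ℕ, g ^ (p ^ k) ∈ φ.ker := by
    intro g
    obtain ⟨k, hk⟩ := hres g
    refine ⟨k + 1, ?_⟩
    have e : g ^ (p ^ (k + 1)) = (g ^ (p ^ k)) ^ p := by rw [← pow_mul, pow_succ]
    have hρk : ∀ i j, PadicInt.toZMod (ρ (g ^ (p ^ k)) i j) =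
        PadicInt.toZMod ((1 : Matrix (Fin n) (Fin n) ℤ_[p]) i j) := by
      intro i j
      rw [← sub_eq_zero, ← map_sub, toZMod_eq_zero_iff_dvd]
      exact hk i j
    have hφk : ∀ x, φ (g ^ (p ^ k)) x = x + fun i => PadicInt.toZMod (b (g ^ (p ^ k)) i) := by
      intro x
      ext i
      rw [hφ]
      have := congrFun (affAct_one x) i
      simp only [affAct, Pi.zero_apply, map_zero, add_zero] at this
      simp only [affAct, hρk, Pi.add_apply]
      rw [this]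
    have hφm : ∀ (m : ℕ) (x : Fin n → ZMod p), (φ (g ^ (p ^ k)) ^ m) x =
        x + m • fun i => PadicInt.toZMod (b (g ^ (p ^ k)) i) := by
      intro m
      induction m with
      | zero => intro x; simp
      | succ m ih =>
        intro x
        rw [pow_succ', Equiv.Perm.mul_apply, ih, hφk, succ_nsmul, add_assoc]
    rw [MonoidHom.mem_ker, e, map_pow]
    ext x i
    rw [hφm, Equiv.Perm.one_apply, Pi.add_apply, Pi.smul_apply, nsmul_eq_mul, CharP.cast_eq_zero,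
      zero_mul, add_zero]
  have hin : ∀ Q : Ideal (𝓞 (AlgebraicClosure F)), Q.IsPrime →
      (p : 𝓞 (AlgebraicClosure F)) ∉ Q → Q.inertia (AbsGal F) ≤ φ.ker := by
    intro Q hQ hQ2 σ hσ
    obtain ⟨h3, h4⟩ := hun Q hQ hQ2 σ hσ
    refine hker σ (fun i j => ?_) (fun i => ?_)
    · rw [← sub_eq_zero, ← map_sub, toZMod_eq_zero_iff_dvd]
      exact h3 i j
    · rw [toZMod_eq_zero_iff]
      exact h4 i
  intro σ i
  have fin : PadicInt.toZMod (b σ i) = 0 := by
    by_cases hi : i ∈ S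
    · obtain ⟨δ, hδ, hu⟩ := surj_of_vanish hVP'.1 φ.ker hopen hpow hin σ
      have h3 := hbmul δ (δ⁻¹ * σ) i
      rw [mul_inv_cancel_left] at h3
      have h4 : b δ i = 0 := by
        apply Subtype.ext
        exact hP' δ hδ i hi
      rw [h3, h4, zero_add, map_sum]
      refine Finset.sum_eq_zero (fun j _ => ?_)
      rw [map_mul, hker2 _ hu j, mul_zero]
    · obtain ⟨δ, hδ, hu⟩ := surj_of_vanish hVP.1 φ.ker hopen hpow hin σ
      have h3 := hbmul δ (δ⁻¹ * σ) i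
      rw [mul_inv_cancel_left] at h3
      have h4 : b δ i = 0 := by
        apply Subtype.ext
        exact hP δ hδ i hi
      rw [h3, h4, zero_add, map_sum]
      refine Finset.sum_eq_zero (fun j _ => ?_)
      rw [map_mul, hker2 _ hu j, mul_zero]
  rw [toZMod_eq_zero_iff] at fin
  exact fin

variable {ρ : AbsGal F →* Matrix (Fin n) (Fin n) ℤ_[p]} {P P' : Ideal (𝓞 (AlgebraicClosure F))}
  {S : Set (Fin n)}
  {Q : HeightOneSpectrum (𝓞 F) → Ideal (𝓞 (AlgebraicClosure F))}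
  {T : Finset (HeightOneSpectrum (𝓞 F))}

theorem norm_lt_one (hVP : VV p P) (hVP' : VV p P') (hρ : IsAdm ρ P P' S)
    {c : AbsGal F → Fin n → ℚ_[p]} (hc : IsCocyc ρ c)
    (hun : ∀ Q : Ideal (𝓞 (AlgebraicClosure F)), Q.IsPrime → (p : 𝓞 (AlgebraicClosure F)) ∉ Q →
      ∀ σ ∈ Q.inertia (AbsGal F), ∀ i, ‖c σ i‖ < 1)
    (hP : ∀ σ ∈ MulAction.stabilizer (AbsGal F) P, ∀ i ∉ S, c σ i = 0)
    (hP' : ∀ σ ∈ MulAction.stabilizer (AbsGal F) P', ∀ i ∈ S, c σ i = 0)
    (hb : ∀ σ i, ‖c σ i‖ ≤ 1) :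
    ∀ σ i, ‖c σ i‖ < 1 := by
  rcases hρ.resid with h | ⟨h1, h2⟩
  · exact norm_lt_one_group hVP hVP' hρ.cont hc
      (fun Q hQ hQp σ hσ => ⟨hρ.unram Q hQ hQp σ hσ, hun Q hQ hQp σ hσ⟩) h hP hP' hb
  · exact Ord.norm_lt_one hVP hVP' ⟨hρ.cont, h1, h2, hρ.unram⟩ hc hun hP hP' hb

theorem inertia_lt {R R' : Ideal (𝓞 (AlgebraicClosure F))} (hρ : IsAdm ρ R R' S)
    (hT : IsRamSet ρ Q T)
    {c : AbsGal F → Fin n → ℚ_[p]} (h : Good ρ P P' S Q T c) (hb : ∀ σ i, ‖c σ i‖ ≤ 1)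
    (R : Ideal (𝓞 (AlgebraicClosure F))) (hP : R.IsPrime)
    (hP2 : (p : 𝓞 (AlgebraicClosure F)) ∉ R)
    (σ : AbsGal F) (hσ : σ ∈ R.inertia (AbsGal F)) (i : Fin n) : ‖c σ i‖ < 1 := by
  have hp1 : (1 : ℝ) < p := by exact_mod_cast (Fact.out : p.Prime).one_lt
  by_cases hbot : R.comap (algebraMap (𝓞 F) (𝓞 (AlgebraicClosure F))) = ⊥
  · have hP0 : R = ⊥ := Ideal.eq_bot_of_comap_eq_bot hbot
    subst hP0
    rw [eq_one_of_inertia_bot hσ, h.coc.one]
    simp
  · let v : HeightOneSpectrum (𝓞 F) := ⟨R.comap _, hP.comap _, hbot⟩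
    have hv2 : (p : 𝓞 F) ∉ v.asIdeal := by
      intro h2
      apply hP2
      have : algebraMap (𝓞 F) (𝓞 (AlgebraicClosure F)) p ∈ R := h2
      rwa [map_natCast] at this
    have hQv := hT.prime v
    obtain ⟨g, hg⟩ := exists_smul_eq (F := F) (Q v) R (hT.above v)
    have hconj : ∀ τ ∈ R.inertia (AbsGal F), g⁻¹ * τ * g ∈ (Q v).inertia (AbsGal F) := by
      intro τ hτ
      apply conj_mem_inertia
      rw [← hg]
      exact hτ
    have hρinv : ∀ g : AbsGal F, ρ g * ρ g⁻¹ = 1 := fun g => by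
      rw [← map_mul, mul_inv_cancel, map_one]
    by_cases hvT : v ∈ T
    · set τ := g⁻¹ * σ * g with hτ
      have h0 : c τ = 0 := h.ram v hvT τ (hconj σ hσ)
      have hστ : σ = g * (τ * g⁻¹) := by rw [hτ]; group
      have h1 : c σ = actLin (ρ g) (actLin (ρ τ) (c g⁻¹) - c g⁻¹) := by
        have h2 : c g + actLin (ρ g) (c g⁻¹) = 0 := by
          rw [← h.coc.mul, mul_inv_cancel, h.coc.one]
        rw [hστ, h.coc.mul, h.coc.mul, h0, zero_add, map_sub, eq_sub_iff_add_eq]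
        rw [add_right_comm, h2, zero_add]
      rw [h1]
      refine lt_of_le_of_lt (norm_act_le (C := (p : ℝ)⁻¹) (by positivity) (fun j => ?_) i)
        (inv_lt_one_of_one_lt₀ hp1)
      exact norm_act_sub_le (hρ.unram (Q v) (hT.prime v) (notMem_above hT hv2) τ (hconj σ hσ))
        (hb _) j
    · have htriv : ∀ τ ∈ R.inertia (AbsGal F), ρ τ = 1 := by
        intro τ hτ
        have h1 := hT.unram v hvT hv2 _ (hconj τ hτ)
        have h2 : τ = g * (g⁻¹ * τ * g) * g⁻¹ := by group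
        rw [h2, map_mul, map_mul, h1, mul_one, hρinv]
      rw [h.un R hP hP2 htriv σ hσ]
      simp

theorem norm_le_pow (hVP : VV p P) (hVP' : VV p P')
    (hρ : IsAdm ρ P P' S) (hT : IsRamSet ρ Q T)
    (k : ℕ) : ∀ c : AbsGal F → Fin n → ℚ_[p], Good ρ P P' S Q T c →
      (∀ σ i, ‖c σ i‖ ≤ 1) → ∀ σ i, ‖c σ i‖ ≤ ((p : ℝ)⁻¹) ^ k := by
  have hp0 : (0 : ℝ) < p := by exact_mod_cast (Fact.out : p.Prime).pos
  induction k with
  | zero =>
    intro c _ hb σ i
    simpa using hb σ i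
  | succ k ih =>
    intro c hc hb σ i
    have hlt := norm_lt_one hVP hVP' hρ hc.coc
      (fun P hP hP2 σ hσ => inertia_lt hρ hT hc hb P hP hP2 σ hσ) hc.z1 hc.z2 hb
    have h2n : ‖(p : ℚ_[p])⁻¹‖ = p := by
      rw [norm_inv, Padic.norm_p, inv_inv]
    have h3 := ih ((p : ℚ_[p])⁻¹ • c) (hc.smul _) (fun σ i => by
        rw [Pi.smul_apply, Pi.smul_apply, norm_smul, h2n]
        have h4 : ‖c σ i‖ ≤ (p : ℝ) ^ (-1 : ℤ) := by
          rw [Padic.norm_le_pow_iff_norm_lt_pow_add_one]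
          simpa using hlt σ i
        rw [zpow_neg_one] at h4
        calc (p : ℝ) * ‖c σ i‖ ≤ p * (p : ℝ)⁻¹ := mul_le_mul_of_nonneg_left h4 hp0.le
          _ = 1 := mul_inv_cancel₀ hp0.ne') σ i
    rw [Pi.smul_apply, Pi.smul_apply, norm_smul, h2n] at h3
    rw [pow_succ]
    calc ‖c σ i‖ = (p : ℝ) * ‖c σ i‖ * (p : ℝ)⁻¹ := by field_simp
      _ ≤ ((p : ℝ)⁻¹) ^ k * (p : ℝ)⁻¹ := mul_le_mul_of_nonneg_right h3 (by positivity)

theorem good_eq_zero (hVP : VV p P) (hVP' : VV p P')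
    (hρ : IsAdm ρ P P' S) (hT : IsRamSet ρ Q T)
    {c : AbsGal F → Fin n → ℚ_[p]} (h : Good ρ P P' S Q T c) : c = 0 := by
  have hp1 : (1 : ℝ) < p := by exact_mod_cast (Fact.out : p.Prime).one_lt
  obtain ⟨C, hC⟩ : ∃ C : ℝ, ∀ σ : AbsGal F, ‖c σ‖ ≤ C := by
    obtain ⟨C, hC⟩ := (isCompact_range h.coc.cont).isBounded.exists_norm_le
    exact ⟨C, fun σ => hC _ ⟨σ, rfl⟩⟩
  obtain ⟨m, hm⟩ := pow_unbounded_of_one_lt C hp1
  have h2n : ‖(p : ℚ_[p]) ^ m‖ = ((p : ℝ)⁻¹) ^ m := by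
    rw [norm_pow, Padic.norm_p]
  have hb : ∀ σ i, ‖((p : ℚ_[p]) ^ m • c) σ i‖ ≤ 1 := by
    intro σ i
    rw [Pi.smul_apply, Pi.smul_apply, norm_smul, h2n]
    have h3 : ‖c σ i‖ ≤ (p : ℝ) ^ m := (norm_le_pi_norm (c σ) i).trans ((hC σ).trans hm.le)
    calc ((p : ℝ)⁻¹) ^ m * ‖c σ i‖ ≤ ((p : ℝ)⁻¹) ^ m * (p : ℝ) ^ m :=
          mul_le_mul_of_nonneg_left h3 (by positivity)
      _ = 1 := by rw [← mul_pow, inv_mul_cancel₀ (by positivity), one_pow]
  have hzero : (p : ℚ_[p]) ^ m • c = 0 := by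
    funext σ i
    rw [Pi.zero_apply, Pi.zero_apply, ← norm_le_zero_iff]
    have h3 : ∀ k : ℕ, ‖((p : ℚ_[p]) ^ m • c) σ i‖ ≤ ((p : ℝ)⁻¹) ^ k := fun k =>
      norm_le_pow hVP hVP' hρ hT k _ (h.smul _) hb σ i
    exact ge_of_tendsto' (tendsto_pow_atTop_nhds_zero_of_lt_one (by positivity)
      (inv_lt_one_of_one_lt₀ hp1)) h3
  have hpne : (p : ℚ_[p]) ≠ 0 := by
    exact_mod_cast (Fact.out : p.Prime).ne_zero
  exact (smul_eq_zero.1 hzero).resolve_left (pow_ne_zero _ hpne)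

end key

section selmer

variable {ρ : AbsGal F →* Matrix (Fin n) (Fin n) ℤ_[p]}

theorem exists_normalised {P P' : Ideal (𝓞 (AlgebraicClosure F))} {S : Set (Fin n)}
    (hρ : IsAdm ρ P P' S) {c : AbsGal F → Fin n → ℚ_[p]} (hc : c ∈ selmer ρ P P' S) :
    ∃ x, c - cobLin ρ x ∈ selmer ρ P P' S ⊓ (zeroOn (MulAction.stabilizer (AbsGal F) P) S ⊓
      zeroOn (MulAction.stabilizer (AbsGal F) P') Sᶜ) := by
  classical
  obtain ⟨-, ⟨x, hx⟩, ⟨x', hx'⟩, -⟩ := mem_selmer.1 hc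
  let y : Fin n → ℚ_[p] := fun i => if i ∈ S then x' i else x i
  refine ⟨y, Submodule.sub_mem _ hc (Ord.cobLin_mem_selmer hρ.cont y), ?_, ?_⟩
  · intro σ hσ i hi
    rw [Pi.sub_apply, Pi.sub_apply, hx σ hσ i hi, cobLin_apply]
    have h1 : actLin (ρ σ) y i = actLin (ρ σ) x i := by
      rw [actLin_apply, actLin_apply]
      refine Finset.sum_congr rfl (fun j _ => ?_)
      by_cases hj : j ∈ S
      · rw [hρ.left σ hσ i hi j hj]
        simp
      · simp [y, hj]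
    have h2 : y i = x i := by simp [y, hi]
    rw [h1, h2, sub_self]
  · intro σ hσ i hi
    rw [Set.mem_compl_iff, not_not] at hi
    rw [Pi.sub_apply, Pi.sub_apply, hx' σ hσ i hi, cobLin_apply]
    have h1 : actLin (ρ σ) y i = actLin (ρ σ) x' i := by
      rw [actLin_apply, actLin_apply]
      refine Finset.sum_congr rfl (fun j _ => ?_)
      by_cases hj : j ∈ S
      · simp [y, hj]
      · rw [hρ.right σ hσ i hi j hj]
        simp
    have h2 : y i = x' i := by simp [y, hi]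
    rw [h1, h2, sub_self]

theorem rank_selmer_le [NumberField F] {P P' : Ideal (𝓞 (AlgebraicClosure F))} {S : Set (Fin n)}
    {Q : HeightOneSpectrum (𝓞 F) → Ideal (𝓞 (AlgebraicClosure F))}
    {T : Finset (HeightOneSpectrum (𝓞 F))}
    (hVP : VV p P) (hVP' : VV p P') (hρ : IsAdm ρ P P' S) (hT : IsRamSet ρ Q T) :
    selmerDim ρ P P' S ≤
      ((∑ v ∈ T, (n - Module.finrank ℚ_[p] (inertiaInv ρ (Q v))) : ℕ) : Cardinal) := by
  classical
  set Sel := selmer ρ P P' S with hSel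
  set Z : Submodule ℚ_[p] (AbsGal F → Fin n → ℚ_[p]) :=
    Sel ⊓ (zeroOn (MulAction.stabilizer (AbsGal F) P) S ⊓
      zeroOn (MulAction.stabilizer (AbsGal F) P') Sᶜ) with hZ
  have hZS : Z ≤ Sel := inf_le_left
  -- the surjection
  let f : Z →ₗ[ℚ_[p]] (Sel ⧸ (LinearMap.range (cobLin ρ)).submoduleOf Sel) :=
    (Submodule.mkQ _).comp (Submodule.inclusion hZS)
  have hf : Function.Surjective f := by
    intro y
    obtain ⟨⟨c, hc⟩, rfl⟩ := Submodule.mkQ_surjective _ y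
    obtain ⟨x, hx⟩ := exists_normalised hρ hc
    refine ⟨⟨c - cobLin ρ x, hx⟩, ?_⟩
    show Submodule.mkQ _ (⟨c - cobLin ρ x, _⟩ : Sel) = Submodule.mkQ _ (⟨c, hc⟩ : Sel)
    rw [← sub_eq_zero, ← map_sub, Submodule.mkQ_apply, Submodule.Quotient.mk_eq_zero]
    show (c - cobLin ρ x) - c ∈ LinearMap.range (cobLin ρ)
    exact ⟨-x, by rw [map_neg]; abel⟩
  refine (LinearMap.rank_le_of_surjective f hf).trans ?_
  -- the injection
  let r : ∀ v : T, Z →ₗ[ℚ_[p]] ((Q v).inertia (AbsGal F) → Fin n → ℚ_[p]) := fun v =>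
    (LinearMap.pi (fun σ : (Q v).inertia (AbsGal F) =>
      LinearMap.proj (φ := fun _ : AbsGal F => Fin n → ℚ_[p]) (σ : AbsGal F))).comp Z.subtype
  have hr : ∀ (v : T) (c : Z), r v c ∈ LinearMap.range (cobRes ρ (Q v)) := by
    intro v c
    obtain ⟨x, hx⟩ := (mem_selmer.1 (hZS c.2)).2.2.2 (Q v) (hT.prime v)
      (notMem_above hT (hT.off v v.2))
    exact ⟨x, funext (fun σ => (hx σ σ.2).symm)⟩
  let L : Z →ₗ[ℚ_[p]] (∀ v : T, LinearMap.range (cobRes ρ (Q v))) :=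
    LinearMap.pi (fun v => LinearMap.codRestrict _ (r v) (hr v))
  have hL : Function.Injective L := by
    rw [← LinearMap.ker_eq_bot, LinearMap.ker_eq_bot']
    intro c hc
    apply Subtype.ext
    obtain ⟨hcoc, -, -, hun⟩ := mem_selmer.1 (hZS c.2)
    have hgood : Good ρ P P' S Q T c.1 := by
      refine ⟨hcoc, c.2.2.1, fun σ hσ i hi => c.2.2.2 σ hσ i (by
        rw [Set.mem_compl_iff, not_not]; exact hi), ?_, ?_⟩
      · intro R hR hP2 htriv σ hσ
        obtain ⟨x, hx⟩ := hun R hR hP2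
        rw [hx σ hσ, htriv σ hσ, act_one, sub_self]
      · intro v hv σ hσ
        have h1 := congrFun hc ⟨v, hv⟩
        have h2 := congrArg Subtype.val h1
        exact congrFun h2 ⟨σ, hσ⟩
    exact good_eq_zero hVP hVP' hρ hT hgood
  refine (LinearMap.rank_le_of_injective L hL).trans ?_
  rw [← Module.finrank_eq_rank, Module.finrank_pi_fintype]
  apply le_of_eq
  congr 1
  rw [← Finset.sum_coe_sort T (fun v => n - Module.finrank ℚ_[p] (inertiaInv ρ (Q v)))]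
  exact Finset.sum_congr rfl (fun v _ => finrank_range_cobRes (Q v))

end selmer

theorem selmerBound [NumberField F] {ρ : AbsGal F →* Matrix (Fin n) (Fin n) ℤ_[p]}
    {P P' : Ideal (𝓞 (AlgebraicClosure F))} {S : Set (Fin n)}
    {Q : HeightOneSpectrum (𝓞 F) → Ideal (𝓞 (AlgebraicClosure F))}
    {T : Finset (HeightOneSpectrum (𝓞 F))}
    (hVP : VV p P) (hVP' : VV p P') (hρ : IsAdm ρ P P' S) (hT : IsRamSet ρ Q T) :
    OddP.Loc.SelmerBound ρ P P' S Q T := by
  intro L L'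
  refine ⟨le_trans ?_ (OddP.Loc.selmer_mono P P' L L'), (OddP.Loc.selmerDim_le L L').trans
    (add_le_add le_rfl (rank_selmer_le hVP hVP' hρ hT))⟩
  rintro _ ⟨x, rfl⟩
  exact Ord.cobLin_mem_selmer hρ.cont x

end Pool.Agent.Work.MP_787500_nt.OddP.Ord.All
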