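import Mathlib
import Pool.Agent.Work.MP_787500_nt.H10_Main
import Pool.Agent.Work.MP_787500_nt.H67_Decomp
import Pool.Agent.Work.MP_787500_nt.H67_Ord

/-!
The vanishing of characters modulo 2, for number fields in the maximal 2-extension, unramified outside
2, of certain imaginary quadratic fields.
-/

set_option autoImplicit false
set_option linter.unusedSectionVars false

namespace Pool.Agent.Work.MP_787500_nt.Uni

open IsDedekindDomain NumberField
open Pool.Agent.Work.MP_787500_nt.OddP (AbsGal Vanish)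
open scoped Pointwise

universe u

variable {F : Type u} [Field F] [NumberField F]

/-- the place below `P` -/
theorem exists_place {p : ℕ} (hp : p ≠ 0) (P : Ideal (𝓞 (AlgebraicClosure F))) (hP : P.IsPrime)
    (hpP : (p : 𝓞 (AlgebraicClosure F)) ∈ P) :
    ∃ w : HeightOneSpectrum (𝓞 F), P.comap (algebraMap (𝓞 F) (𝓞 (AlgebraicClosure F))) = w.asIdeal ∧
      (p : 𝓞 F) ∈ w.asIdeal := by
  have h1 : (p : 𝓞 F) ∈ P.comap (algebraMap (𝓞 F) (𝓞 (AlgebraicClosure F))) := by
    rw [Ideal.mem_comap, map_natCast]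
    exact hpP
  refine ⟨⟨P.comap _, hP.comap _, ?_⟩, rfl, h1⟩
  intro h
  rw [h, Ideal.mem_bot] at h1
  exact hp (by exact_mod_cast h1)

/-- No open subgroup of index two contains the stabilizer of `P` and all inertia groups away
from 2. -/
theorem eq_top_of_index_two (hF : PropP F) (P : Ideal (𝓞 (AlgebraicClosure F))) (hP : P.IsPrime)
    (hP2 : (2 : 𝓞 (AlgebraicClosure F)) ∈ P) (N : Subgroup (AbsGal F))
    (hmul : ∀ σ τ, σ * τ ∈ N ↔ (σ ∈ N ↔ τ ∈ N)) (hopen : IsOpen (N : Set (AbsGal F)))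
    (hin : ∀ Q : Ideal (𝓞 (AlgebraicClosure F)), Q.IsPrime → (2 : 𝓞 (AlgebraicClosure F)) ∉ Q →
      Q.inertia (AbsGal F) ≤ N)
    (hdec : MulAction.stabilizer (AbsGal F) P ≤ N) : N = ⊤ := by
  obtain ⟨w, hPw, hw⟩ := exists_place (p := 2) two_ne_zero P hP (by exact_mod_cast hP2)
  have hw : (2 : 𝓞 F) ∈ w.asIdeal := by exact_mod_cast hw
  obtain ⟨s, hs0, hs1, hs2⟩ := exists_sqrt_of_char (fun σ => σ ∈ N) hmul hopen
  have hsq : ∀ σ : AbsGal F, σ (s ^ 2) = s ^ 2 := by
    intro σ
    by_cases h : σ ∈ N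
    · rw [map_pow, hs1 σ h]
    · rw [map_pow, hs2 σ h, neg_sq]
  obtain ⟨d, hd⟩ := mem_base_of_fixed hsq
  have hd0 : d ≠ 0 := by
    rintro rfl
    rw [map_zero] at hd
    exact hs0 (pow_eq_zero_iff (by norm_num) |>.1 hd.symm)
  have hne : s ≠ -s := by
    intro h
    have h2 : (2 : AlgebraicClosure F) * s = 0 := by linear_combination h
    exact mul_ne_zero two_ne_zero hs0 h2
  have hev : EvenOff2 d := by
    intro v hv
    by_contra hcon
    obtain ⟨Q, hQ, hQ2, σ, hσ, hσs⟩ := exists_inertia_of_odd hd.symm hv hcon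
    rw [hs1 σ (hin Q hQ hQ2 hσ)] at hσs
    exact hne hσs
  have hloc : LocSq (w.valuation F) d := fun γ hγ =>
    OddP.exists_approx (p := 2) P w hPw hd.symm (fun σ hσ => hs1 σ (hdec hσ)) γ hγ
  obtain ⟨y, hy⟩ := hF w hw d hd0 hev hloc
  rw [eq_top_iff]
  intro σ _
  by_contra hcon
  have h1 := hs2 σ hcon
  have h2 : s ^ 2 = (algebraMap F (AlgebraicClosure F) y) ^ 2 := by
    rw [← hd, hy, map_mul, pow_two]
  rcases sq_eq_sq_iff_eq_or_eq_neg.1 h2 with h | h
  · rw [h, AlgEquiv.commutes] at h1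
    rw [← h] at h1
    exact hne h1
  · have h3 : σ s = s := by rw [h, map_neg, AlgEquiv.commutes]
    rw [h3] at h1
    exact hne h1

theorem vanish_two (hF : PropP F) (P : Ideal (𝓞 (AlgebraicClosure F))) (hP : P.IsPrime)
    (hP2 : (2 : 𝓞 (AlgebraicClosure F)) ∈ P) : Vanish 2 P (1 : AbsGal F →* ZMod 2) := by
  intro c hmul hV hP' hI
  obtain ⟨V, hVo, hV⟩ := hV
  simp only [MonoidHom.one_apply, one_mul] at hmul
  have hc1 : c 1 = 0 := by
    have h := hmul 1 1
    rw [mul_one] at h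
    exact left_eq_add.1 h
  let N : Subgroup (AbsGal F) :=
    { carrier := {σ | c σ = 0}
      one_mem' := hc1
      mul_mem' := by
        intro a b ha hb
        show c (a * b) = 0
        rw [hmul, show c a = 0 from ha, show c b = 0 from hb, add_zero]
      inv_mem' := by
        intro a ha
        show c a⁻¹ = 0
        have h3 := hmul a⁻¹ a
        rw [inv_mul_cancel, hc1, show c a = 0 from ha, add_zero] at h3
        exact h3.symm }
  have hN : ∀ σ, σ ∈ N ↔ c σ = 0 := fun σ => Iff.rfl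
  have key : ∀ a b : ZMod 2, a + b = 0 ↔ (a = 0 ↔ b = 0) := by decide
  have htop := eq_top_of_index_two hF P hP hP2 N
    (fun σ τ => by rw [hN, hN, hN, hmul]; exact key _ _)
    (Subgroup.isOpen_mono (H₁ := V) (fun v hv => by
      rw [hN]
      have h := hV 1 v hv
      rw [one_mul] at h
      rw [h, hc1]) hVo)
    (fun Q hQ hQ2 σ hσ => hI Q hQ (by exact_mod_cast hQ2) σ hσ)
    (fun σ hσ => hP' σ hσ)
  intro σ
  rw [← hN, htop]
  trivial

theorem vv_two (hF : PropP F) (P : Ideal (𝓞 (AlgebraicClosure F))) (hP : P.IsPrime)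
    (hP2 : (2 : 𝓞 (AlgebraicClosure F)) ∈ P) : OddP.Ord.VV 2 P := by
  refine ⟨vanish_two hF P hP hP2, fun ω hω => ?_⟩
  have h1 : ω = 1 := by
    ext σ
    rw [MonoidHom.one_apply]
    have h := hω σ (-1) (by norm_num)
    rw [map_neg, map_one] at h
    generalize ω σ = a at h
    have key : ∀ a : ZMod 2, a = 0 ∨ a = 1 := by decide
    rcases key a with rfl | rfl
    · exfalso
      have h2 : (-1 : AlgebraicClosure F) = 1 := by simpa using h
      have h3 : (2 : AlgebraicClosure F) = 0 := by linear_combination -h2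
      exact two_ne_zero h3
    · rfl
  rw [h1]
  exact vanish_two hF P hP hP2

end Pool.Agent.Work.MP_787500_nt.Uni
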