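import Mathlib
import Pool.Agent.Work.MP_787500_nt.H67_Main
import Pool.Agent.Work.MP_787500_nt.Uni.Defs
import Pool.Agent.Work.MP_787500_nt.Uni.Two

/-!
The vanishing for both characters, for all primes `p`.
-/

set_option autoImplicit false

namespace Pool.Agent.Work.MP_787500_nt.Uni

open IsDedekindDomain NumberField
open Pool.Agent.Work.MP_787500_nt.OddP (AbsGal InPTower isBase_of_sq)

universe u

variable {K F : Type u} [Field K] [NumberField K] [Field F] [NumberField F] [Algebra K F]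

theorem inTwoTower (hF : InPTower 2 K F) : InTwoTower K F := by
  obtain ⟨L, h1, h2, h3, h4, h5, h6, h7, h8⟩ := hF
  exact ⟨L, h1, h2, h3, h4, h5, h6, h7, fun Q hQ => h8 Q (by exact_mod_cast hQ)⟩

theorem vv_all {p : ℕ} [Fact p.Prime] (hK : IsBaseField p K) (hF : InPTower p K F)
    (P : Ideal (𝓞 (AlgebraicClosure F))) (hP : P.IsPrime)
    (hpP : (p : 𝓞 (AlgebraicClosure F)) ∈ P) : OddP.Ord.VV p P := by
  by_cases hp2 : p = 2
  · subst hp2
    have hpP2 : (2 : 𝓞 (AlgebraicClosure F)) ∈ P := by exact_mod_cast hpP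
    rcases hK with h | ⟨hdeg, ⟨s, hs⟩ | ⟨-, q, s, hq, hq16, hs⟩⟩
    · exact absurd rfl h.odd
    · exact vv_two (general_tower (q := 7) hdeg (s := s) (by rw [hs]; push_cast; ring)
        (by norm_num) (by norm_num) (inTwoTower hF)) P hP hpP2
    · exact vv_two (general_tower hdeg hs hq hq16 (inTwoTower hF)) P hP hpP2
  · have hK' : OddP.IsBase p K := by
      rcases hK with h | ⟨hdeg, ⟨s, hs⟩ | ⟨h2, -⟩⟩
      · exact h
      · exact isBase_of_sq Fact.out hp2 hdeg hs
      · exact absurd h2 hp2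
    exact OddP.vv_of_tower hK' hF P hpP

end Pool.Agent.Work.MP_787500_nt.Uni
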